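import Pool.Agent.Y862.GM.Stm

/-!
# GM-LOC: the local factors (helper259, for project GM of helper862)
-/

set_option autoImplicit false

namespace Pool.Agent.Y259.GM

open Finset Pool.Agent.Y862.GM

theorem muP_period (p m : ℕ) : muP p (m + p ^ 2) = muP p m := by
  have h1 : p ^ 2 ∣ m + p ^ 2 ↔ p ^ 2 ∣ m := Nat.dvd_add_left (dvd_refl _)
  have h2 : p ∣ m + p ^ 2 ↔ p ∣ m := Nat.dvd_add_left (dvd_pow_self p two_ne_zero)
  unfold muP
  simp only [h1, h2]

theorem muP_abs (p m : ℕ) : |muP p m| ≤ 1 := by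
  unfold muP
  split_ifs <;> simp

theorem muP_one {p m : ℕ} (h : ¬ p ∣ m) : muP p m = 1 := by
  have h1 : ¬ p ^ 2 ∣ m := fun h2 => h ((dvd_pow_self p two_ne_zero).trans h2)
  unfold muP
  rw [if_neg h1, if_neg h]

theorem loc_abs {K : ℕ} (h : Fin K → ℕ) (p n : ℕ) : |loc h p n| ≤ 1 := by
  unfold loc
  rw [Finset.abs_prod]
  exact Finset.prod_le_one (fun i _ => abs_nonneg _) (fun i _ => muP_abs _ _)

theorem loc_one {K : ℕ} {h : Fin K → ℕ} {p n : ℕ} (hn : ∀ i, ¬ p ∣ n + h i) : loc h p n = 1 := by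
  unfold loc
  exact Finset.prod_eq_one fun i _ => muP_one (hn i)

/-- the number of solutions of `r ∣ n + v` among `k r` consecutive numbers -/
theorem card_dvd (r k v : ℕ) (hr : 0 < r) :
    ((range (k * r)).filter fun n => r ∣ n + v).card = k := by
  have h1 : ∀ n, r ∣ n + v ↔ n ≡ (r - 1) * v [MOD r] := by
    intro n
    have h2 : (r - 1) * v + v = r * v := by
      obtain ⟨s, rfl⟩ : ∃ s, r = s + 1 := ⟨r - 1, by omega⟩
      simp only [Nat.add_sub_cancel]
      ring
    constructor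
    · intro hd
      have h3 : n + v ≡ (r - 1) * v + v [MOD r] := by
        rw [h2]
        exact ((Nat.modEq_zero_iff_dvd.2 hd)).trans
          (Nat.modEq_zero_iff_dvd.2 (Dvd.intro v rfl)).symm
      exact Nat.ModEq.add_right_cancel' v h3
    · intro hd
      have h3 : n + v ≡ (r - 1) * v + v [MOD r] := hd.add_right v
      rw [h2] at h3
      exact Nat.modEq_zero_iff_dvd.1 (h3.trans (Nat.modEq_zero_iff_dvd.2 (Dvd.intro v rfl)))
  have h4 := Nat.count_modEq_card (k * r) hr ((r - 1) * v)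
  rw [Nat.mul_div_cancel _ hr, Nat.mul_mod_left, if_neg (Nat.not_lt_zero _), add_zero] at h4
  rw [Nat.count_eq_card_filter_range] at h4
  refine Eq.trans ?_ h4
  congr 1
  ext n
  simp only [mem_filter, h1]

theorem sum_ite_dvd (r k v : ℕ) (hr : 0 < r) (c : ℝ) :
    ∑ n ∈ range (k * r), (if r ∣ n + v then c else 0) = k * c := by
  rw [← Finset.sum_filter, Finset.sum_const, card_dvd r k v hr, nsmul_eq_mul]

theorem sum_ite_p (p v : ℕ) (hp : 0 < p) (c : ℝ) :
    ∑ n ∈ range (p ^ 2), (if p ∣ n + v then c else 0) = p * c := by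
  rw [sq]
  exact sum_ite_dvd p p v hp c

theorem sum_ite_p2 (p v : ℕ) (hp : 0 < p) (c : ℝ) :
    ∑ n ∈ range (p ^ 2), (if p ^ 2 ∣ n + v then c else 0) = c := by
  have h := sum_ite_dvd (p ^ 2) 1 v (pow_pos hp 2) c
  rw [one_mul, Nat.cast_one, one_mul] at h
  exact h

theorem loc_l1 {K : ℕ} (h : Fin K → ℕ) (p : ℕ) (hp : 0 < p) :
    ∑ n ∈ range (p ^ 2), |loc h p n - 1| ≤ 2 * K * p := by
  have h1 : ∀ n ∈ range (p ^ 2), |loc h p n - 1| ≤ ∑ i, (if p ∣ n + h i then (2 : ℝ) else 0) := by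
    intro n _
    by_cases hn : ∀ i, ¬ p ∣ n + h i
    · rw [loc_one hn, sub_self, abs_zero]
      exact Finset.sum_nonneg fun i _ => by split_ifs <;> norm_num
    · push Not at hn
      obtain ⟨i, hi⟩ := hn
      have h2 : |loc h p n - 1| ≤ 2 := by
        have := abs_le.1 (loc_abs h p n)
        rw [abs_le]
        constructor <;> linarith [this.1, this.2]
      refine h2.trans ?_
      have h3 : (if p ∣ n + h i then (2 : ℝ) else 0) ≤ ∑ i, (if p ∣ n + h i then (2 : ℝ) else 0) :=
        Finset.single_le_sum (f := fun i => if p ∣ n + h i then (2 : ℝ) else 0)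
          (fun i _ => by split_ifs <;> norm_num) (Finset.mem_univ i)
      rw [if_pos hi] at h3
      exact h3
  refine (Finset.sum_le_sum h1).trans ?_
  rw [Finset.sum_comm]
  simp only [sum_ite_p p _ hp]
  rw [Finset.sum_const, Finset.card_univ, Fintype.card_fin, nsmul_eq_mul]
  apply le_of_eq
  ring

/-- the multiplicity of a value -/
def mult {K : ℕ} (h : Fin K → ℕ) (v : ℕ) : ℕ := (univ.filter (fun i => h i = v)).card

theorem loc_pow {K : ℕ} {h : Fin K → ℕ} {p n v : ℕ} (hh : ∀ i, h i < p) (hv : v < p)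
    (hn : p ∣ n + v) : loc h p n = muP p (n + v) ^ mult h v := by
  have huniq : ∀ i, h i ≠ v → ¬ p ∣ n + h i := by
    intro i hi hd
    apply hi
    have h1 : n + h i ≡ n + v [MOD p] :=
      (Nat.modEq_zero_iff_dvd.2 hd).trans (Nat.modEq_zero_iff_dvd.2 hn).symm
    have h2 : h i ≡ v [MOD p] := Nat.ModEq.add_left_cancel' n h1
    exact Nat.ModEq.eq_of_lt_of_lt h2 (hh i) hv
  unfold loc mult
  rw [← Finset.prod_filter_mul_prod_filter_not univ (fun i => h i = v)]
  rw [Finset.prod_eq_one (s := univ.filter (fun i => ¬ h i = v))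
    (fun i hi => muP_one (huniq i (Finset.mem_filter.1 hi).2)), mul_one]
  rw [Finset.prod_congr rfl (g := fun _ => muP p (n + v))
    (fun i hi => by rw [(Finset.mem_filter.1 hi).2]), Finset.prod_const]

theorem loc_sum {K : ℕ} (h : Fin K → ℕ) (p : ℕ) (hp : 0 < p) (hh : ∀ i, h i < p) :
    ∑ n ∈ range (p ^ 2), loc h p n =
      (p : ℝ) ^ 2 - 2 * (odd h).card * p + 2 * (odd h).card - (univ.image h).card := by
  have h1 : ∀ n, loc h p n = 1 + ∑ v ∈ univ.image h,
      ((if p ^ 2 ∣ n + v then -(-1 : ℝ) ^ mult h v else 0) +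
        (if p ∣ n + v then (-1 : ℝ) ^ mult h v - 1 else 0)) := by
    intro n
    by_cases hn : ∀ i, ¬ p ∣ n + h i
    · rw [loc_one hn, Finset.sum_eq_zero, add_zero]
      intro v hv
      obtain ⟨i, -, rfl⟩ := Finset.mem_image.1 hv
      rw [if_neg (fun h2 => hn i ((dvd_pow_self p two_ne_zero).trans h2)), if_neg (hn i), add_zero]
    · push Not at hn
      obtain ⟨i, hi⟩ := hn
      have hmem : h i ∈ univ.image h := Finset.mem_image_of_mem h (Finset.mem_univ i)
      have hother : ∀ v ∈ univ.image h, v ≠ h i → ¬ p ∣ n + v := by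
        intro v hv hne hd
        obtain ⟨j, -, rfl⟩ := Finset.mem_image.1 hv
        apply hne
        have h1 : n + h j ≡ n + h i [MOD p] :=
          (Nat.modEq_zero_iff_dvd.2 hd).trans (Nat.modEq_zero_iff_dvd.2 hi).symm
        exact Nat.ModEq.eq_of_lt_of_lt (Nat.ModEq.add_left_cancel' n h1) (hh j) (hh i)
      rw [Finset.sum_eq_single_of_mem (h i) hmem (fun v hv hne => by
        have h3 := hother v hv hne
        rw [if_neg (fun h2 => h3 ((dvd_pow_self p two_ne_zero).trans h2)), if_neg h3, add_zero])]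
      rw [loc_pow hh (hh i) hi, if_pos hi]
      have hc : mult h (h i) ≠ 0 := by
        have hm : i ∈ univ.filter (fun j => h j = h i) :=
          Finset.mem_filter.2 ⟨Finset.mem_univ i, rfl⟩
        exact (Finset.card_pos.2 ⟨i, hm⟩).ne'
      by_cases h2 : p ^ 2 ∣ n + h i
      · rw [if_pos h2]
        unfold muP
        rw [if_pos h2, zero_pow hc]
        ring
      · rw [if_neg h2]
        unfold muP
        rw [if_neg h2, if_pos hi]
        ring
  have h2 : ∑ n ∈ range (p ^ 2), loc h p n = (p : ℝ) ^ 2 + ∑ v ∈ univ.image h,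
      (-(-1 : ℝ) ^ mult h v + p * ((-1 : ℝ) ^ mult h v - 1)) := by
    rw [Finset.sum_congr rfl (fun n _ => h1 n), Finset.sum_add_distrib, Finset.sum_const,
      Finset.card_range, nsmul_eq_mul, mul_one, Nat.cast_pow, Finset.sum_comm]
    congr 1
    apply Finset.sum_congr rfl
    intro v _
    rw [Finset.sum_add_distrib, sum_ite_p2 p v hp, sum_ite_p p v hp]
  have h3 : ∀ v ∈ univ.image h, (-(-1 : ℝ) ^ mult h v + p * ((-1 : ℝ) ^ mult h v - 1)) =
      -1 + (if Odd ((univ.filter (fun i => h i = v)).card) then (2 - 2 * (p : ℝ)) else 0) := by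
    intro v _
    by_cases ho : Odd ((univ.filter (fun i => h i = v)).card)
    · rw [if_pos ho]
      have h4 : (-1 : ℝ) ^ mult h v = -1 := Odd.neg_one_pow ho
      rw [h4]
      ring
    · rw [if_neg ho]
      have h4 : (-1 : ℝ) ^ mult h v = 1 := Even.neg_one_pow (Nat.not_odd_iff_even.1 ho)
      rw [h4]
      ring
  rw [h2, Finset.sum_congr rfl h3, Finset.sum_add_distrib, ← Finset.sum_filter, Finset.sum_const,
    Finset.sum_const, nsmul_eq_mul, nsmul_eq_mul]
  change _ + (_ + ((odd h).card : ℝ) * _) = _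
  ring

theorem t_LOC : S_LOC := by
  intro K h p hp
  refine ⟨?_, loc_abs h p, loc_l1 h p hp.pos, loc_sum h p hp.pos⟩
  intro n
  unfold loc
  apply Finset.prod_congr rfl
  intro i _
  rw [add_right_comm]
  exact muP_period p _

end Pool.Agent.Y259.GM
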